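import Pool.Agent.helper30.QP.SpecC

/-!
# QP (MP_ebc808_nt), row DVM: quotients of modular functions
-/

set_option autoImplicit false

open Polynomial Pool.Agent.helper7.IG

noncomputable section

namespace Pool.Agent.QP

theorem DVM : DVM_stmt := by
  intro Φ F G hF hG
  have hq : F / G ∈ MM := MM.div_mem hF hG
  refine ⟨hq, ?_⟩
  by_cases h : G = 0
  · subst h
    rw [div_zero, Φ.cl_zero, div_zero]
  · have hc : Φ.cl G ≠ 0 := fun h0 => h (Φ.cl_inj G hG h0)
    rw [eq_div_iff hc, ← Φ.cl_mul _ hq _ hG, div_mul_cancel₀ _ h]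

end Pool.Agent.QP
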